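import Pool.Agent.R424.IP.Main

/-!
# MP_cda23d_nt: uniformity in one-parameter families at integral parameters, for all primes and all
# number fields at once, with polylogarithmically many exceptions

Let `j = F/G` be a rational function over `ℚ` in lowest terms with two different rational poles
`π ≠ ρ`, for example the invariant of the Legendre family `y² = x(x - 1)(x - t)` (all elliptic curves
with full level two structure; the poles are `0` and `1`).

**Theorem.** For all integers `|t| ≤ X`, with at most `C (log X) ^ k` exceptions: for EVERY number
field `L`, EVERY prime `p ≥ 11` larger than `[L : ℚ]` and the degree of `G`, and EVERY elliptic curve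
`E` over `L` with invariant `j(t)` the order of the image of `Gal(L̄/L)` in `Aut(E[p])` is divisible by
`p`. In particular this image is not contained in the normaliser of a Cartan subgroup and it is not
exceptional.

Over `ℚ` the only open case of the uniformity question, for primes `p > 37`, is that the image is
contained in the normaliser of a non-split Cartan subgroup. By the theorem this does not happen for
all `t` but polylogarithmically many, for all `p` at once.

Proof. If the order of the image is prime to `p` then by the local theory of helper673
(`Pool.Agent.Y673.Loc.coreK`) `p` divides the valuation of `j(t)` at all places where it is negative. So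
`p` divides the exponent of each prime `q` outside a finite set `S` in the linear form `b t - a`
vanishing at `π`, and similarly for `ρ`: `b t - a = s y ^ p` and `b' t - a' = s' z ^ p` with `s`, `s'`
composed of primes of `S` with exponents less than `p`. For given `p`, `s`, `s'` two solutions
`|t₁| ≤ |t₂|` satisfy `|t₂| ≥ 2 |t₁|`, by a gap principle whose constants do not depend on `p`, `s`,
`s'`; and for `p > log (C X)` both linear forms are composed of primes of `S`.
-/

set_option autoImplicit false

open WeierstrassCurve Polynomial

namespace Pool.Agent.Results.MP_cda23d_nt.IntegralParameters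

section
variable {K : Type} [Field K]

/-- The curve `y² = x³ + Ax + B` over the field `K`. -/
def curve (A B : K) : WeierstrassCurve K := ⟨0, 0, 0, A, B⟩

/-- Its `j`-invariant. -/
noncomputable def invariant (A B : K) : K := 1728 * (4 * A ^ 3) / (4 * A ^ 3 + 27 * B ^ 2)

open scoped Classical in
/-- The group of its points over the algebraic closure of `K`. -/
abbrev Points (A B : K) : Type := ((curve A B).baseChange (AlgebraicClosure K)).toAffine.Point

open scoped Classical in
/-- The action of an automorphism `σ` of the algebraic closure on the points. -/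
noncomputable def galois (A B : K) (σ : AlgebraicClosure K ≃ₐ[K] AlgebraicClosure K) :
    Points A B →+ Points A B :=
  WeierstrassCurve.Affine.Point.map (σ : AlgebraicClosure K →ₐ[K] AlgebraicClosure K)

open scoped Classical in
/-- Some `σ` acts on the `p`-torsion with order `p`: its `p`-th power acts trivially on the
`p`-torsion, and `σ` does not.  For a prime `p` this says that the order of the image of the Galois
group in the automorphism group of the `p`-torsion is divisible by `p`. -/
def OrderDivisible (A B : K) (p : ℕ) : Prop :=
  ∃ σ : AlgebraicClosure K ≃ₐ[K] AlgebraicClosure K,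
    (∀ P : Points A B, p • P = 0 → galois A B (σ ^ p) P = P) ∧
    ∃ P : Points A B, p • P = 0 ∧ galois A B σ P ≠ P

end

/-- The integer `t` is exceptional for `F/G`: it is not a pole, and for some prime `p ≥ 11` larger than
the degree of `G` and some number field `L` of degree less than `p` there is an elliptic curve over `L`
with the invariant `F(t)/G(t)` for which the order of the image of the Galois group in the automorphism
group of the `p`-torsion is not divisible by `p`. -/
def Exceptional (F G : ℚ[X]) (t : ℤ) : Prop :=
  G.eval (t : ℚ) ≠ 0 ∧ ∃ p : ℕ, p.Prime ∧ 11 ≤ p ∧ G.natDegree < p ∧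
    ∃ (L : Type) (_ : Field L) (_ : NumberField L) (A B : L),
      Module.finrank ℚ L < p ∧ 4 * A ^ 3 + 27 * B ^ 2 ≠ 0 ∧
      invariant A B = ((F.eval (t : ℚ) / G.eval (t : ℚ) : ℚ) : L) ∧ ¬ OrderDivisible A B p

/-- **Few exceptions at integral parameters.** For a rational function `F/G` in lowest terms with two
rational poles there are `C` and `k` such that for `X ≥ 2` at most `C (log X) ^ k` integers
`|t| ≤ X` are exceptional. -/
theorem result (F G : ℚ[X]) (hFG : IsCoprime F G) (hG : G ≠ 0) (π ρ : ℚ) (hπρ : π ≠ ρ)
    (hπ : G.eval π = 0) (hρ : G.eval ρ = 0) :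
    ∃ (C : ℝ) (k : ℕ), ∀ X : ℕ, 2 ≤ X →
      (({t : ℤ | |t| ≤ (X : ℤ) ∧ Exceptional F G t} : Set ℤ).ncard : ℝ) ≤ C * Real.log X ^ k := by
  have hinv : ∀ {K : Type} [Field K] (A B : K), Pool.Agent.Y673.Loc.jv A B = invariant A B := by
    intro K _ A B
    unfold Pool.Agent.Y673.Loc.jv invariant
    ring
  obtain ⟨C, k, h⟩ := Pool.Agent.R424.IP.SU_count F G hFG hG π ρ hπρ hπ hρ
  refine ⟨C, k, fun X hX => le_trans ?_ (h X hX)⟩
  have hfin : ({t : ℤ | |t| ≤ (X : ℤ) ∧ ∃ p, Pool.Agent.R424.IP.Rel1 F G t p} :
      Set ℤ).Finite := by
    refine (Finset.finite_toSet (Finset.Icc (-(X : ℤ)) X)).subset ?_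
    rintro t ⟨ht, -⟩
    rw [Finset.mem_coe, Finset.mem_Icc]
    exact abs_le.1 ht
  refine Nat.cast_le.2 (Set.ncard_le_ncard ?_ hfin)
  rintro t ⟨g0, g1, p, g3, g4, g5, L, iF, iN, A, B, g7, g8, g10, g12⟩
  refine ⟨g0, p, g1, g3, g4, g5, L, iF, iN, A, B, g7, g8, ?_, g12⟩
  rw [hinv, g10, eq_ratCast]

end Pool.Agent.Results.MP_cda23d_nt.IntegralParameters
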