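import Pool.Agent.Results.MP_cda23d_nt.InvariantWindows
import Pool.Agent.R482.ST.Star

/-!
# Uniformity for all elliptic curves with invariant of height near powers, orbits and other sequences

Let `f_n`, `n = 0, 1, 2, …`, be positive functions on `(a, ∞)`, `a ≥ 0`, such that `f_n(t) / t` is nondecreasing, and such
that the sequence `f_n(t)` has exponent of convergence at most `τ` for each `t > a`: for instance `f_n(t) = t ^ (v_n)` for
exponents `v_n ≥ 1` (`τ = 0`; all powers, the powers `t ^ (3 ^ n)` of Mills, …), the orbits `f_n(t) = g (g (⋯ g (t)))` of any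
map `g` with `g(t) > t` and `g(t) / t` nondecreasing (`τ = 0`; for instance of `t² + c`), and `f_n(t) = v_n t`.
Let `θ < 1`. For every `ε > 0` there are `N` and `c > 0` such that for all `α > a` outside a set of Hausdorff dimension at most
`(ε + τ) / (1 - θ)`, every `κ` and all but finitely many `n`, for ALL rational numbers `j` of height `H(j)` with
`|H(j) - f_n(α)| ≤ κ f_n(α) ^ θ`, ALL elliptic curves `E` over `ℚ` with invariant `j` and ALL primes `p` with
`N ≤ p ≤ exp (c √(log H(j)))` the order of the image of `Gal(ℚ̄/ℚ)` in `Aut(E[p])` is divisible by `p`.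
-/

set_option autoImplicit false

open WeierstrassCurve

namespace Pool.Agent.Results.MP_cda23d_nt.StarshapedInvariants

open InvariantWindows (invariant OrderDivisible ht Exc count)

/-- the functions `f n` are positive on `(a, ∞)`, `a ≥ 0`, and `f n x / x` is nondecreasing there -/
def Starshaped (a : ℝ) (f : ℕ → ℝ → ℝ) : Prop :=
  0 ≤ a ∧ ∀ n : ℕ, ∀ x y : ℝ, a < x → x ≤ y → 0 < f n x ∧ f n x / x ≤ f n y / y

/-- for each `x > a` the exponent of convergence of the sequence `f n x` is at most `τ` -/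
def ExpLe (a : ℝ) (f : ℕ → ℝ → ℝ) (τ : ℝ) : Prop :=
  ∀ x : ℝ, a < x → ∀ t : ℝ, τ < t → Summable (fun n : ℕ => (f n x) ^ (-t))

/-- **Theorem.** For every `ε > 0` there are `N` and `c > 0` such that for all starshaped functions `f` on `(a, ∞)` of
exponent of convergence at most `τ ≥ 0` and `θ < 1` there is a set `E` of Hausdorff dimension at most `(ε + τ) / (1 - θ)` such
that for each `α > a` outside `E`, each `κ` and all but finitely many `n`, for ALL rational numbers `A, B` with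
`4A³ + 27B² ≠ 0` such that the height `H` of the invariant of `y² = x³ + Ax + B` satisfies `|H - f_n(α)| ≤ κ f_n(α) ^ θ` and
ALL primes `p` with `N ≤ p ≤ exp (c √(log H))` the order of the image of the Galois group in `Aut(E[p])` is divisible by `p`.
The functions `v_n x`, `v_n > 0`, are starshaped on `(0, ∞)`, of exponent `τ` if `v` has exponent of convergence at most
`τ`; the functions `x ^ (v_n)`, `v_n ≥ 1`, are starshaped on `(1, ∞)`, of exponent `0` if the sums of `exp (-t v_n)` converge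
for `t > 0`; and the iterates of a map `g` with `g(x) > x` for `x > a` and `g(x) / x` nondecreasing are starshaped on
`(a, ∞)`, of exponent `0`. -/
theorem result :
    (∀ ε : ℝ, 0 < ε → ∃ (N : ℕ) (c : ℝ), 0 < c ∧
      ∀ (a : ℝ) (f : ℕ → ℝ → ℝ) (τ θ : ℝ), Starshaped a f → 0 ≤ τ → ExpLe a f τ → θ < 1 →
      ∃ E : Set ℝ, dimH E ≤ ENNReal.ofReal ((ε + τ) / (1 - θ)) ∧
        ∀ α : ℝ, a < α → α ∉ E → ∀ κ : ℝ, ∃ n₀ : ℕ, ∀ n : ℕ, n₀ ≤ n → ∀ A B : ℚ, 4 * A ^ 3 + 27 * B ^ 2 ≠ 0 →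
          |(ht (invariant A B) : ℝ) - f n α| ≤ κ * (f n α) ^ θ →
            ∀ p : ℕ, p.Prime → N ≤ p → (p : ℝ) ≤ Real.exp (c * Real.sqrt (Real.log (ht (invariant A B) : ℝ))) →
              OrderDivisible A B p) ∧
    (∀ (v : ℕ → ℝ) (τ : ℝ), (∀ n, 0 < v n) → (∀ t : ℝ, τ < t → Summable (fun n : ℕ => (v n) ^ (-t))) →
      Starshaped 0 (fun n x => v n * x) ∧ ExpLe 0 (fun n x => v n * x) τ) ∧
    (∀ v : ℕ → ℝ, (∀ n, 1 ≤ v n) → (∀ t : ℝ, 0 < t → Summable fun n : ℕ => Real.exp (-(t * v n))) →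
      Starshaped 1 (fun n x => x ^ (v n)) ∧ ExpLe 1 (fun n x => x ^ (v n)) 0) ∧
    (∀ (a : ℝ) (g : ℝ → ℝ), 0 ≤ a → (∀ x y : ℝ, a < x → x ≤ y → g x / x ≤ g y / y) → (∀ x : ℝ, a < x → x < g x) →
      Starshaped a (fun n x => g^[n] x) ∧ ExpLe a (fun n x => g^[n] x) 0) := by
  refine ⟨fun ε hε => ?_, Pool.Agent.R482.ST.ex_mul, Pool.Agent.R482.ST.ex_pow,
    Pool.Agent.R482.ST.ex_orbit⟩
  obtain ⟨N, c, hc, hcount⟩ := count ε hε
  refine ⟨N, c, hc, fun a f τ θ hf hτ hE hθ1 => ?_⟩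
  obtain ⟨E, h2, h3⟩ := Pool.Agent.R482.ST.windows (Exc N c) (fun j => (ht j : ℝ)) hf hτ hE
    (s := ε) hε.le hθ1 hcount
  refine ⟨E, h2, fun α hα hαE κ => ?_⟩
  obtain ⟨n₀, hn⟩ := h3 α hα hαE κ
  refine ⟨n₀, fun n hn1 A B hAB hw p hp hNp hpc => ?_⟩
  by_contra hcon
  exact absurd (hn n hn1 (invariant A B) ⟨A, B, hAB, rfl, p, hp, hNp, hpc, hcon⟩) (not_lt.2 hw)

end Pool.Agent.Results.MP_cda23d_nt.StarshapedInvariants
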