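import Pool.Agent.R424.IP.Main2

/-!
# MP_cda23d_nt: in one-parameter families, the exceptional primes at large integers `t` are smaller
# than `(log |t|) ^ (1 - δ)`

Let `j = F/G` be a rational function over `ℚ` in lowest terms with two different rational poles
`π ≠ ρ`, for example the invariant of the Legendre family `y² = x(x - 1)(x - t)` (the poles are `0` and
`1`).

**Theorem.** There are `δ > 0` and `T₀` such that for ALL integers `t` with `|t| ≥ T₀`, ALL primes
`p ≥ (log |t|) ^ (1 - δ)`, ALL number fields `L` of degree less than `p` and ALL elliptic curves `E`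
over `L` with invariant `j(t)` the order of the image of `Gal(L̄/L)` in `Aut(E[p])` is divisible by
`p`. In particular this image is not contained in the normaliser of a Cartan subgroup. There are no
exceptional `t`.

(The logarithmic height of the curves is of the order of `log |t|`. Over `ℚ` the only open case of the
uniformity question, for primes `p > 37`, is that the image is contained in the normaliser of a
non-split Cartan subgroup; a bound for these `p` which is linear in the height is easy if the invariant
is not an integer, since then its denominator is a `p`-th power. The point is that `p` is smaller than a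
power of the height with an exponent less than `1`.)

Proof. If the order of the image is prime to `p` then by the local theory of helper673
(`Pool.Agent.Y673.Loc.coreK`) `p` divides the exponent of each prime `q` outside a finite set `S` in the
linear form `b t - a` vanishing at `π`, and similarly for `ρ`. So `b t - a = s y ^ p` and
`b' t - a' = s' z ^ p` with `s`, `s'` composed of primes of `S`, and `y`, `z` not divisible by
these. The linear form `Λ = log |b' (b t - a)| - log |b (b' t - a')|` in the logarithms of the primes of
`S`, `b`, `b'`, `y` and `z` is not zero and `|Λ| ≤ C / |t|`. By the lower bound for linear forms in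
logarithms of helper913 (`Pool.Agent.Y913.Nb.WB_dep`) `|Λ| ≥ 2 ^ (-g ^ κ)` if the integers are at most
`2 ^ g`, and one can take `g` of the order of `(log |t|) ^ δ` if `p ≥ (log |t|) ^ (1 - δ)`, since
`log y ≤ log |C t| / p`. With `δ κ ≤ 1 / 2` this is a contradiction for large `|t|`.
-/

set_option autoImplicit false

open WeierstrassCurve Polynomial

namespace Pool.Agent.Results.MP_cda23d_nt.SublinearPrimes

section
variable {K : Type} [Field K]

/-- The curve `y² = x³ + Ax + B` over the field `K`. -/
def curve (A B : K) : WeierstrassCurve K := ⟨0, 0, 0, A, B⟩

/-- Its `j`-invariant. -/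
noncomputable def invariant (A B : K) : K := 1728 * (4 * A ^ 3) / (4 * A ^ 3 + 27 * B ^ 2)

open scoped Classical in
/-- The group of its points over the algebraic closure of `K`. -/
abbrev Points (A B : K) : Type := ((curve A B).baseChange (AlgebraicClosure K)).toAffine.Point

open scoped Classical in
/-- The action of an automorphism `σ` of the algebraic closure on the points. -/
noncomputable def galois (A B : K) (σ : AlgebraicClosure K ≃ₐ[K] AlgebraicClosure K) :
    Points A B →+ Points A B :=
  WeierstrassCurve.Affine.Point.map (σ : AlgebraicClosure K →ₐ[K] AlgebraicClosure K)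

open scoped Classical in
/-- Some `σ` acts on the `p`-torsion with order `p`: its `p`-th power acts trivially on the
`p`-torsion, and `σ` does not.  For a prime `p` this says that the order of the image of the Galois
group in the automorphism group of the `p`-torsion is divisible by `p`. -/
def OrderDivisible (A B : K) (p : ℕ) : Prop :=
  ∃ σ : AlgebraicClosure K ≃ₐ[K] AlgebraicClosure K,
    (∀ P : Points A B, p • P = 0 → galois A B (σ ^ p) P = P) ∧
    ∃ P : Points A B, p • P = 0 ∧ galois A B σ P ≠ P

end

/-- **Exceptional primes at large integral parameters.** For a rational function `F/G` in lowest terms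
with two rational poles there are `δ > 0` and `T₀` such that for all integers `|t| ≥ T₀`, all primes
`p ≥ 11` with `p ≥ (log |t|) ^ (1 - δ)` and larger than the degree of `G`, all number fields `L` of
degree less than `p` and all elliptic curves over `L` with the invariant `F(t)/G(t)` the order of the
image of the Galois group in the automorphism group of the `p`-torsion is divisible by `p`. -/
theorem result (F G : ℚ[X]) (hFG : IsCoprime F G) (hG : G ≠ 0) (π ρ : ℚ) (hπρ : π ≠ ρ)
    (hπ : G.eval π = 0) (hρ : G.eval ρ = 0) :
    ∃ δ : ℝ, 0 < δ ∧ δ < 1 ∧ ∃ T₀ : ℕ, ∀ t : ℤ, (T₀ : ℤ) ≤ |t| → G.eval (t : ℚ) ≠ 0 →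
      ∀ p : ℕ, p.Prime → 11 ≤ p → G.natDegree < p → Real.log |(t : ℝ)| ^ (1 - δ) ≤ p →
      ∀ (L : Type) [Field L] [NumberField L], Module.finrank ℚ L < p → ∀ A B : L,
        4 * A ^ 3 + 27 * B ^ 2 ≠ 0 →
        invariant A B = ((F.eval (t : ℚ) / G.eval (t : ℚ) : ℚ) : L) → OrderDivisible A B p := by
  have hinv : ∀ {K : Type} [Field K] (A B : K), Pool.Agent.Y673.Loc.jv A B = invariant A B := by
    intro K _ A B
    unfold Pool.Agent.Y673.Loc.jv invariant
    ring
  obtain ⟨δ, h0, h1, T₀, h⟩ := Pool.Agent.R424.IP.SU_big F G hFG hG π ρ hπρ hπ hρ
  refine ⟨δ, h0, h1, T₀, ?_⟩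
  intro t ht g1 p g3 g4 g5 hp L iF iN g7 A B g8 g10
  by_contra g12
  refine h t ht p hp ⟨g1, g3, g4, g5, L, iF, iN, A, B, g7, g8, ?_, g12⟩
  rw [hinv, g10, eq_ratCast]

end Pool.Agent.Results.MP_cda23d_nt.SublinearPrimes
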