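import Pool.Agent.Results.MP_cda23d_nt.InvariantWindows
import Pool.Agent.R559.NP.Near2

/-!
# Uniformity for all elliptic curves with invariant near a given point

Let `φ` be any map from the rational numbers to a metric space `X`, for example the inclusion in `ℝ` or in `ℚ_l`.  For all
`ξ ∈ X` outside a set of Hausdorff dimension zero and all `τ > 0` there are `N` and `c > 0` such that for every `κ`, for all
but finitely many rational numbers `j` of height `H(j)` with `dist (φ j) ξ ≤ κ H(j) ^ (-τ)`, for ALL elliptic curves `E` over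
`ℚ` with invariant `j` and ALL primes `p` with `N ≤ p ≤ exp (c √(log H(j)))` the order of the image of the Galois group in
`Aut(E[p])` is divisible by `p`.
-/

set_option autoImplicit false

open WeierstrassCurve

namespace Pool.Agent.Results.MP_cda23d_nt.UniformityNearAPoint

open Filter Topology
open InvariantWindows (OrderDivisible invariant ht)

/-- for all elliptic curves `y² = x³ + Ax + B` over `ℚ` with invariant `j` and all primes `p` with
`N ≤ p ≤ exp (c √(log H(j)))` the order of the image of the Galois group in `Aut(E[p])` is divisible by `p` -/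
def Good (N : ℕ) (c : ℝ) (j : ℚ) : Prop :=
  ∀ A B : ℚ, 4 * A ^ 3 + 27 * B ^ 2 ≠ 0 → invariant A B = j → ∀ p : ℕ, p.Prime → N ≤ p →
    (p : ℝ) ≤ Real.exp (c * Real.sqrt (Real.log (ht j : ℝ))) → OrderDivisible A B p

lemma not_good {N : ℕ} {c : ℝ} {j : ℚ} (h : ¬ Good N c j) : j ∈ InvariantWindows.Exc N c := by
  unfold Good at h
  push Not at h
  obtain ⟨A, B, h1, h2, p, h3, h4, h5, h6⟩ := h
  exact ⟨A, B, h1, h2, p, h3, h4, h5, h6⟩

lemma one_le_ht (j : ℚ) : (1 : ℝ) ≤ (ht j : ℝ) := by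
  have h1 : 1 ≤ j.den := j.den_pos
  have h2 : 1 ≤ ht j := h1.trans (le_max_right _ _)
  exact_mod_cast h2

/-- **Theorem.** (1) Let `φ` be a map from `ℚ` to a metric space `X`.  There is `E ⊆ X` of Hausdorff dimension zero such
that for all `ξ ∈ X` outside `E` and all `τ > 0` there are `N` and `c > 0` such that for every `κ` all but finitely many
rational numbers `j` with `dist (φ j) ξ ≤ κ H(j) ^ (-τ)` are `Good N c`: for ALL elliptic curves `E : y² = x³ + Ax + B` over
`ℚ` with invariant `j` and ALL primes `p` with `N ≤ p ≤ exp (c √(log H(j)))` the order of the image of the Galois group in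
`Aut(E[p])` is divisible by `p`.
(2) For every `ε > 0` there are `N` and `c > 0` such that for all `φ` and all `τ > 0` this holds with these `N`, `c` for all
`ξ` outside a set of Hausdorff dimension at most `ε / τ`. -/
theorem result :
    (∀ (X : Type) [MetricSpace X] (φ : ℚ → X), ∃ E : Set X, dimH E = 0 ∧ ∀ ξ : X, ξ ∉ E → ∀ τ : ℝ, 0 < τ →
      ∃ (N : ℕ) (c : ℝ), 0 < c ∧ ∀ κ : ℝ,
        {j : ℚ | dist (φ j) ξ ≤ κ * (ht j : ℝ) ^ (-τ) ∧ ¬ Good N c j}.Finite) ∧
    (∀ ε : ℝ, 0 < ε → ∃ (N : ℕ) (c : ℝ), 0 < c ∧ ∀ (X : Type) [MetricSpace X] (φ : ℚ → X) (τ : ℝ), 0 < τ →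
      ∃ E : Set X, dimH E ≤ ENNReal.ofReal (ε / τ) ∧ ∀ ξ : X, ξ ∉ E → ∀ κ : ℝ,
        {j : ℚ | dist (φ j) ξ ≤ κ * (ht j : ℝ) ^ (-τ) ∧ ¬ Good N c j}.Finite) := by
  constructor
  · intro X _ φ
    have hcount := fun j : ℕ => InvariantWindows.count (1 / ((j : ℝ) + 1)) (by positivity)
    choose N c hc h using hcount
    obtain ⟨E, hE, hE'⟩ := Pool.Agent.R559.NP.near_zero_fam (T := ℚ) (X := X) (Y := Unit)
      (H := fun j => (ht j : ℝ)) one_le_ht
      (Bad := fun k _ j => j ∈ InvariantWindows.Exc (N k) (c k)) (s := fun j => 1 / ((j : ℝ) + 1))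
      (fun j => by positivity) tendsto_one_div_add_atTop_nhds_zero_nat (fun k _ ε hε => h k ε hε)
      (fun _ => φ)
    refine ⟨E, hE, fun ξ hξ τ hτ => ?_⟩
    obtain ⟨k, hk⟩ := hE' ξ hξ τ hτ
    exact ⟨N k, c k, hc k, fun κ => (hk () κ).subset fun j hj => ⟨hj.1, not_good hj.2⟩⟩
  · intro ε hε
    obtain ⟨N, c, hc, h⟩ := InvariantWindows.count ε hε
    refine ⟨N, c, hc, fun X _ φ τ hτ => ?_⟩
    obtain ⟨E, hE, hE'⟩ := Pool.Agent.R559.NP.near_dim (T := ℚ) (X := X) (H := fun j => (ht j : ℝ))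
      one_le_ht (Bad := fun j => j ∈ InvariantWindows.Exc N c) hε.le hτ (fun η hη => h η hη) φ
    exact ⟨E, hE, fun ξ hξ κ => (hE' ξ hξ κ).subset fun j hj => ⟨hj.1, not_good hj.2⟩⟩

end Pool.Agent.Results.MP_cda23d_nt.UniformityNearAPoint
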